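import Pool.Agent.Run7.h789.SM.Main2
import Pool.Agent.NH29.GN.Fin3

/-!
MP_45e720_ag, Q1: if there are no nonconstant maps from elliptic curves (complex tori of dimension
one) to `X`, then `X` is Kobayashi hyperbolic, for ALL projective varieties `X` with a morphism with
fibres of dimension at most one to an ARBITRARY projective variety `V`, highly ramified over at least
`n + 2` ZARISKI-GENERAL hypersurface sections of `V`, `n = dim V`. For fibres of any dimension, Q1
for `X` follows from Q1 for the fibres.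

Let `V` be a closed subset of the projective space of dimension `M` over `ℂ`, of dimension at most
`n`; it may be singular or reducible. Let `q ≥ n + 2`, and let `d_b ≥ 1`, `b < q`, be degrees such
that at most `2 (q - n) - 2` of them are `1`, or `n + m (n - m) ≤ m ∑ d_b` for `1 ≤ m ≤ n` and the
sums over `q - m - 1` of the `b`.

THEOREM. There are a nonzero polynomial `Φ` in the coefficients of `q` forms of degrees `d_b`, and a
number `m`, with the following property. Let `F_b` be forms of degrees `d_b` with `Φ (F) ≠ 0`, and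
let `X` be a closed subset of `P^N × P^M` (`N` is arbitrary) which lies over `V` and is ramified to
order at least `m` over the hypersurfaces `F_b = 0` (all curves in `X` meet their preimages, as long
as they are not contained in them, with multiplicities at least `m` only).
(1) Every entire curve in `X` lies in a fibre of `X` over `V`, and `X` is Brody hyperbolic if and only
    if all the fibres are.
(2) Suppose that the fibres of `X` over `V` have dimension at most one. The following are equivalent:
    `X` is Brody hyperbolic (equivalently, Kobayashi hyperbolic: `X` is compact); all morphisms from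
    elliptic curves to `X` are constant; `X` contains no curves of geometric genus at most one.
(3) Under the assumption of (2), the Zariski closure of every nonconstant entire curve in `X` is a
    curve of geometric genus at most one, and the image of an elliptic curve.

`canDeg ℂ L` is the degree `2 g - 2` of the canonical divisors of the function field `L` of one
variable, `Place ℂ L` is the set of its places (for any `L`: of its discrete valuations, trivial on
`ℂ`). `BiSet N M`: closed subsets of `P^N × P^M`, given by bihomogeneous equations.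
-/

set_option autoImplicit false

namespace Pool.Agent.Results.MP_45e720_ag.FibresOfDimensionOne

open MvPolynomial FF
open Pool.Agent.W602.Cov.R (BiSet BiPoly BiHom)
open Pool.Agent.W603.LV (canDeg)

/-- The closed subset of the projective space of dimension `M` given by the forms in `V` has
dimension at most `n`: there are `n + 1` linear forms without common zero on it. -/
def DimLE {M : ℕ} (V : Set (MvPolynomial (Fin (M + 1)) ℂ)) (n : ℕ) : Prop :=
  ∃ ℓ : Fin (n + 1) → MvPolynomial (Fin (M + 1)) ℂ, (∀ j, (ℓ j).IsHomogeneous 1) ∧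
    ∀ y : Fin (M + 1) → ℂ, (∀ H ∈ V, aeval y H = 0) → (∀ j, aeval y (ℓ j) = 0) → y = 0

/-- The numerical condition on the degrees. -/
def Numeric (n : ℕ) {q : ℕ} (d : Fin q → ℕ) : Prop :=
  n + 2 ≤ q ∧ (∀ b, 1 ≤ d b) ∧ (((Finset.univ.filter fun b => d b = 1).card + 2 ≤ 2 * (q - n)) ∨
    ∀ m, 1 ≤ m → m ≤ n → ∀ B : Finset (Fin q), B.card + m + 1 = q →
      n + m * (n - m) ≤ m * ∑ b ∈ B, d b)

/-- The indices of the coefficients of `q` forms of degrees `d i` in `M + 1` variables. -/
abbrev Index (M : ℕ) {q : ℕ} (d : Fin q → ℕ) : Type :=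
  (i : Fin q) × {β : Fin (M + 1) →₀ ℕ // β.degree = d i}

/-- `F` is a family of forms of degrees `d i`, and `Φ (F) ≠ 0`. -/
def General {M q : ℕ} {d : Fin q → ℕ} (Φ : MvPolynomial (Index M d) ℂ)
    (F : Fin q → MvPolynomial (Fin (M + 1)) ℂ) : Prop :=
  (∀ i, (F i).IsHomogeneous (d i)) ∧ aeval (fun s : Index M d => coeff s.2.1 (F s.1)) Φ ≠ 0

variable {N M q : ℕ}

section

variable {L : Type} [Field L] [Algebra ℂ L]

/-- The least order at the place `P` of the nonzero members of a family. -/
noncomputable def minOrd {ι : Type} (P : Place ℂ L) (x : ι → L) : ℤ :=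
  ⨅ j : {j // x j ≠ 0}, P.ord (x j)

/-- The field generated by the ratios of the coordinates of `x`. -/
noncomputable def ratios {k : ℕ} (x : Fin (k + 1) → L) : IntermediateField ℂ L :=
  IntermediateField.adjoin ℂ {z | ∃ i j, x j ≠ 0 ∧ z = x i / x j}

/-- The point with the homogeneous coordinates `x` is not constant. -/
def Nonconst {k : ℕ} (x : Fin (k + 1) → L) : Prop := ∃ i j, x j ≠ 0 ∧ Transcendental ℂ (x i / x j)

/-- The Zariski closure of the point `(a, x)`: the bihomogeneous forms which vanish at the point. -/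
def closureOf (a : Fin (N + 1) → L) (x : Fin (M + 1) → L) : Set (BiPoly N M) :=
  {G | (∃ D D', BiHom G D D') ∧ aeval (Sum.elim a x) G = 0}

end

/-- `X` lies over `V`. -/
def Over (X : BiSet N M) (V : Set (MvPolynomial (Fin (M + 1)) ℂ)) : Prop :=
  ∀ (u : Fin (N + 1) → ℂ) (v : Fin (M + 1) → ℂ), X.Mem u v → ∀ H ∈ V, eval v H = 0

/-- `X` is ramified to order at least `m` over the hypersurfaces `F b = 0`: if a point `(a, x)` of
`X` over a field with a discrete valuation `P` (trivial on `ℂ`) is not in the preimage of `F b = 0`,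
its order of contact with the preimage at `P` is `0` or at least `m`. -/
def Ramified (X : BiSet N M) (d : Fin q → ℕ) (F : Fin q → MvPolynomial (Fin (M + 1)) ℂ) (m : ℕ) :
    Prop :=
  ∀ (L : Type) [Field L] [Algebra ℂ L] (a : Fin (N + 1) → L) (x : Fin (M + 1) → L), X.Mem a x →
    ∀ (P : Place ℂ L) (b : Fin q), aeval x (F b) ≠ 0 →
      P.ord (aeval x (F b)) = d b * minOrd P x ∨ d b * minOrd P x + m ≤ P.ord (aeval x (F b))

/-- The fibres of `X` over the second factor have dimension at most one: if the second component of a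
point of `X` over a field is constant, then the first component generates a field of transcendence
degree at most one. -/
def FibresLEOne (X : BiSet N M) : Prop :=
  ∀ (L : Type) [Field L] [Algebra ℂ L] (a : Fin (N + 1) → L) (x : Fin (M + 1) → L), X.Mem a x →
    ¬ Nonconst x → Algebra.trdeg ℂ (ratios a) ≤ 1

/-- `X` is Brody hyperbolic. -/
def Brody (X : BiSet N M) : Prop :=
  ∀ (u : ℂ → Fin (N + 1) → ℂ) (v : ℂ → Fin (M + 1) → ℂ), Differentiable ℂ u → Differentiable ℂ v →
    (∀ z, X.Mem (u z) (v z)) → ∀ z z', (∃ s : ℂ, u z' = s • u z) ∧ ∃ s : ℂ, v z' = s • v z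

/-- All fibres of `X` over the second factor are Brody hyperbolic. -/
def FibresBrody (X : BiSet N M) : Prop :=
  ∀ (c : Fin (M + 1) → ℂ) (u : ℂ → Fin (N + 1) → ℂ), Differentiable ℂ u → (∀ z, X.Mem (u z) c) →
    ∀ z z', ∃ s : ℂ, u z' = s • u z

/-- `E` is the function field of an elliptic curve, given by a Weierstrass equation. -/
def IsElliptic (E : Type) [Field E] [Algebra ℂ E] : Prop :=
  ∃ (a b : ℂ) (x y : E), 4 * a ^ 3 + 27 * b ^ 2 ≠ 0 ∧
    y ^ 2 = x ^ 3 + algebraMap ℂ E a * x + algebraMap ℂ E b ∧ IntermediateField.adjoin ℂ {x, y} = ⊤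

/-- All morphisms from elliptic curves to `X` are constant. -/
def NoElliptic (X : BiSet N M) : Prop :=
  ∀ (E : Type) [Field E] [Algebra ℂ E] [IsFF ℂ E], IsElliptic E → ∀ (a : Fin (N + 1) → E)
    (x : Fin (M + 1) → E), X.Mem a x → ¬ Nonconst a ∧ ¬ Nonconst x

/-- The closed curves of geometric genus at most one in `X` (function field `L`, generic point
`(a, x)`), given by the forms which vanish on them. -/
def lowCurves (X : BiSet N M) : Set (Set (BiPoly N M)) :=
  {W | ∃ (L : Type) (_ : Field L) (_ : Algebra ℂ L) (_ : IsFF ℂ L) (a : Fin (N + 1) → L)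
    (x : Fin (M + 1) → L), X.Mem a x ∧ ratios a ⊔ ratios x = ⊤ ∧ canDeg ℂ L ≤ 0 ∧
    W = closureOf a x}

section Proof

open Pool.Agent.NH29.GN (Idx Mon fv val)

theorem fv_eq {L : Type} [Field L] [Algebra ℂ L] {d : Fin q → ℕ}
    {F : Fin q → MvPolynomial (Fin (M + 1)) ℂ} (hF : ∀ i, (F i).IsHomogeneous (d i))
    (x : Fin (M + 1) → L) (b : Fin q) :
    fv (K := ℂ) (L := L) (fun s : Idx M d => coeff s.2.1 (F s.1)) x b = aeval x (F b) := by
  classical
  rw [aeval_def]
  exact (Pool.Agent.NH29.GN.Stc.eval₂_form (algebraMap ℂ L) x (hF b)).symm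

theorem num2_of {n : ℕ} {d : Fin q → ℕ} (h : Numeric n d) (C : Finset (Fin q))
    (hC : C ≠ Finset.univ) : Pool.Agent.NH29.GN.Num2 n d C := by
  obtain ⟨h1, h2, h3 | h3⟩ := h
  · exact Pool.Agent.NH29.GN.Fn.num_of_few h2 h1 h3 C hC
  · exact Pool.Agent.NH29.GN.Fn.num_of_sum h1 h3 C hC

end Proof

/-- **Tori and hyperbolicity for varieties which are highly ramified over Zariski-general
hypersurface sections.** -/
theorem result {M n q : ℕ} {d : Fin q → ℕ} (hd : Numeric n d)
    (V : Set (MvPolynomial (Fin (M + 1)) ℂ)) (hV : ∀ H ∈ V, ∃ e, H.IsHomogeneous e)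
    (hdim : DimLE V n) :
    ∃ (Φ : MvPolynomial (Index M d) ℂ) (m : ℕ), Φ ≠ 0 ∧
      ∀ F : Fin q → MvPolynomial (Fin (M + 1)) ℂ, General Φ F →
      ∀ (N : ℕ) (X : BiSet N M), Over X V → Ramified X d F m →
        -- (1) entire curves and fibres
        (∀ (u : ℂ → Fin (N + 1) → ℂ) (v : ℂ → Fin (M + 1) → ℂ), Differentiable ℂ u →
          Differentiable ℂ v → (∀ z, X.Mem (u z) (v z)) → ∀ z z', ∃ s : ℂ, v z' = s • v z) ∧
        (Brody X ↔ FibresBrody X) ∧
        (FibresLEOne X →
          -- (2) the notions of hyperbolicity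
          List.TFAE [Brody X, NoElliptic X, lowCurves X = ∅] ∧
          -- (3) entire curves
          ∀ (u : ℂ → Fin (N + 1) → ℂ) (v : ℂ → Fin (M + 1) → ℂ), Differentiable ℂ u →
            Differentiable ℂ v → (∀ z, X.Mem (u z) (v z)) →
            (∃ z z', ¬ ((∃ s : ℂ, u z' = s • u z) ∧ ∃ s : ℂ, v z' = s • v z)) →
            {G : BiPoly N M | (∃ D D', BiHom G D D') ∧
              ∀ z, eval (Sum.elim (u z) (v z)) G = 0} ∈ lowCurves X ∧
            ∃ (E : Type) (_ : Field E) (_ : Algebra ℂ E) (_ : IsFF ℂ E) (a : Fin (N + 1) → E)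
              (x : Fin (M + 1) → E), IsElliptic E ∧ X.Mem a x ∧ Nonconst a ∧
              closureOf a x = {G : BiPoly N M | (∃ D D', BiHom G D D') ∧
                ∀ z, eval (Sum.elim (u z) (v z)) G = 0}) := by
  classical
  obtain ⟨ℓ, hℓ, hZ⟩ := hdim
  obtain ⟨r, rfl⟩ : ∃ r, q = r + 1 := ⟨q - 1, by have := hd.1; omega⟩
  have hN := Pool.Agent.NH29.GN.Fn.noZero_of_points (K := ℂ) hZ
  obtain ⟨m, A, Φ, h1, h2⟩ := Pool.Agent.Run7.h789.SM.exists_eng hV hℓ hN
    (le_trans (Nat.le_succ _) hd.1) hd.2.1 (num2_of hd)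
  have hG1 := Pool.Agent.Q285.SFG.t_gpc
  have hw := Pool.Agent.Q95.SF.wei
  refine ⟨Φ, m, h1, fun F hF N X hXV hram => ?_⟩
  have hE : Pool.Agent.Run7.h789.SM.Eng X A := h2 _ hF.2 N X hXV fun L _ _ a x hm P b hb => by
    rw [fv_eq hF.1] at hb ⊢
    exact hram L a x hm P b hb
  refine ⟨hE.entire, ⟨fun h c u hu hm z z' => ?_, fun h u v hu hv hm z z' => ?_⟩, fun hX => ?_⟩
  · exact (h u (fun _ => c) hu (differentiable_const c) hm z z').1
  · refine ⟨h (v 0) u hu (fun t => ?_) z z', hE.entire u v hu hv hm z z'⟩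
    obtain ⟨s, hs⟩ := hE.entire u v hu hv hm 0 t
    refine ⟨(hm t).1, (hm 0).2.1, fun G hG => ?_⟩
    obtain ⟨D, D', hD⟩ := X.hom G hG
    have h3 := (hm t).2.2 G hG
    have h4 := Pool.Agent.Run7.h789.RC.bi_scale hD (1 : ℂ) s (u t) (v 0)
    have h5 : (Sum.elim (fun i => (1 : ℂ) * u t i) fun j => s * v 0 j) =
        Sum.elim (u t) (v t) := by
      funext k
      rcases k with k | k
      · simp only [Sum.elim_inl, one_mul]
      · simp only [Sum.elim_inr, hs, Pi.smul_apply, smul_eq_mul]
    rw [h5, h3, one_pow, one_mul] at h4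
    refine (mul_eq_zero.1 h4.symm).resolve_left (pow_ne_zero _ ?_)
    rintro rfl
    exact (hm t).2.1 (by rw [hs, zero_smul])
  have hS : Pool.Agent.Run7.h789.SM.Fib X := hX
  refine ⟨?_, fun u v hu hv hm hne => ?_⟩
  · have e1 : Brody X → lowCurves X = ∅ := Pool.Agent.Run7.h789.SM.of_brody hw hE
    have e2 : lowCurves X = ∅ → Brody X := Pool.Agent.Run7.h789.SM.brody_of hG1 hS hE
    have e3 : NoElliptic X → lowCurves X = ∅ := Pool.Agent.Run7.h789.SM.of_noEll hE
    have e4 : lowCurves X = ∅ → NoElliptic X := Pool.Agent.Run7.h789.SM.noEll_of hw hG1 hE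
    tfae_have 1 → 3 := e1
    tfae_have 3 → 1 := e2
    tfae_have 2 → 3 := e3
    tfae_have 3 → 2 := e4
    tfae_finish
  obtain ⟨z, z', hne⟩ := hne
  have h3 : ¬ ∃ s : ℂ, u z' = s • u z := fun h => hne ⟨h, hE.entire u v hu hv hm z z'⟩
  have h4 := Pool.Agent.Run7.h789.SM.low_ent hG1 hS hE hu hv hm h3
  exact ⟨h4, Pool.Agent.Run7.h789.SM.ell_of_low hE h4⟩

end Pool.Agent.Results.MP_45e720_ag.FibresOfDimensionOne
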