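import Pool.Agent.Run7.h493.SR.Curve
import Pool.Agent.Run7.h493.TS.Gtk
import Pool.Agent.Run7.h493.SR.Low

/-!
MP_45e720_ag, Q1: projective surfaces whose function fields contain the roots of high order of the
quotients of at least `n + 2` Zariski-general forms, of any degrees, on an arbitrary projective
variety of dimension `n`. If all maps from elliptic curves to such a surface are constant then the
surface is Kobayashi hyperbolic.

Let `V` be a closed subset of the complex projective space `ℙ ^ M`, of dimension at most `n`; it may
be singular or reducible. Let `q ≥ n + 2`, and let `d_1, …, d_q` be positive integers of which at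
most `2 (q - n - 1)` are equal to one (for example: all `d_b ≥ 2`).

THEOREM. There are a nonzero polynomial `Φ` in the coefficients of `q` forms of degrees
`d_1, …, d_q`, and a number `m₀`, with the following property. Let `F_1, …, F_q` be forms of degrees
`d_1, …, d_q` such that `Φ (F) ≠ 0`, and let `m ≥ m₀`. Let `K` be the function field of a surface, such
that the surface has a rational map `v` to `V` (a point `v` of `V` over `K`) which is not constant
and whose image is not contained in one of the hypersurfaces `F_b = 0`, and such that

* the field `K` contains `m`-th roots of the rational functions `F_b (v) ^ {d_c} / F_c (v) ^ {d_b}`.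

Let `X` be any projective surface with the function field `K`, smooth or singular. Then

(1) the Zariski closure of every entire curve in `X` is a curve of geometric genus at most one;
(2) the following are equivalent: `X` is Kobayashi hyperbolic; `X` is Brody hyperbolic; all meromorphic
  maps from the spaces `ℂ ^ g` to `X` are constant; all morphisms from elliptic curves to `X` are
  constant; there is no curve of geometric genus at most one in `X`;
(3) if the rational map `v` is generically finite, `X` is of general type.

By (2) the answer to Q1 is yes for all these surfaces: elliptic curves are complex tori, and a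
holomorphic map from a complex torus `ℂ ^ g / Λ` is a (`Λ`-periodic) map from `ℂ ^ g`; so if every
holomorphic map from a complex torus to `X` is constant then `X` is Kobayashi hyperbolic. The condition
is a condition on the function field of `X` only. The numbers `m₀` and the polynomial `Φ` depend only on
`V` and the degrees.

Example. Let `Z` be any surface contained in `V` and in none of the hypersurfaces, and let `X` be any
projective surface (smooth or singular) whose function field is a finite extension of the field which
arises from the field of rational functions of `Z` by the adjunction of the `m`-th roots: for example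
the blowing ups of the surfaces finite over the cover of `Z` with these roots. Such surfaces can contain
curves of genus `0` and `1`.

The proof. An entire curve in `X` which is not contained in the zeros of the forms and of the
denominators of the roots, composed with `v`, is a holomorphic curve in `V` which meets the
hypersurfaces `F_b = 0` with multiplicities which are zero or at least `m / d_c` for some `c`. It is
constant by the second main theorem, truncated to level one and with a constant which depends only on
`V` and the degrees, of `Pool/Agent/Run7/h493/TS`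
(see `Pool.Agent.Results.MP_579abc_ag.TruncatedSecondMain`). So all entire curves in `X` are contained in
algebraic curves. The theorems on entire curves in algebraic curves, on elliptic curves, and Brody's
theorem for projective varieties are those of the starting files `Pool/Agent/Q103/SF` (with `Q24`, `Q95`,
`Q111`, `Q239`, `Q285`); see `Run7.h493.SR.tfae`. General type is proved with the criterion
`Pool.Agent.Run7.h789.RC.lgt_cover`.

The definitions `KobayashiHyp`, `BrodyHyp`, `NoMero`, `NoElliptic`, `lowCurves`
(`Pool/Agent/Q103/SF/Defs.lean`, `Pool/Agent/Q103/SF/Defs2.lean`) are those of the hand-in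
`ManyPreperiodicSurfaces` for this problem.
-/

set_option autoImplicit false

namespace Pool.Agent.Results.MP_45e720_ag.SurfacesWithRoots

open MvPolynomial
open Pool.Agent.W602.GT (GeneralType coords IsForm)
open Pool.Agent.Q103.SF (van vanOn lowCurves KobayashiHyp BrodyHyp NoMero NoElliptic)
open Pool.Agent.Y221.BD (EntireCurve)

variable {M N n q : ℕ}

/-- The closed subset of `ℙ ^ M` given by the forms in `V` has dimension at most `n`: there are
`n + 1` linear forms without common zero on it. -/
def DimLE (V : Set (MvPolynomial (Fin (M + 1)) ℂ)) (n : ℕ) : Prop :=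
  ∃ ℓ : Fin (n + 1) → MvPolynomial (Fin (M + 1)) ℂ, (∀ j, (ℓ j).IsHomogeneous 1) ∧
    ∀ y : Fin (M + 1) → ℂ, (∀ H ∈ V, eval y H = 0) → (∀ j, eval y (ℓ j) = 0) → y = 0

/-- The numerical condition. -/
def Degrees (n : ℕ) {q : ℕ} (d : Fin q → ℕ) : Prop :=
  (∀ b, 1 ≤ d b) ∧ n + 2 ≤ q ∧ (Finset.univ.filter fun b => d b = 1).card ≤ 2 * (q - n - 1)

/-- The indices of the coefficients of `q` forms of degrees `d b` in `M + 1` variables. -/
abbrev Index (M : ℕ) {q : ℕ} (d : Fin q → ℕ) : Type :=
  (b : Fin q) × {β : Fin (M + 1) →₀ ℕ // β.degree = d b}

/-- `F` is a family of forms of degrees `d b`, and `Φ (F) ≠ 0`. -/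
def General {d : Fin q → ℕ} (Φ : MvPolynomial (Index M d) ℂ)
    (F : Fin q → MvPolynomial (Fin (M + 1)) ℂ) : Prop :=
  (∀ b, (F b).IsHomogeneous (d b)) ∧ eval (fun s : Index M d => coeff s.2.1 (F s.1)) Φ ≠ 0

/-- `v` is a point over `K` of the closed subset of `ℙ ^ M` given by the forms in `V`: a rational map
to `V` from the varieties with the function field `K`. It is not constant. -/
structure RationalMap (V : Set (MvPolynomial (Fin (M + 1)) ℂ)) {K : Type} [Field K] [Algebra ℂ K]
    (v : Fin (M + 1) → K) : Prop where
  mem : ∀ H ∈ V, aeval v H = 0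
  nonconst : ∃ i j, v j ≠ 0 ∧ ∀ c : ℂ, v i ≠ c • v j

/-- The field `K` contains `m`-th roots of the rational functions `F b ^ d c / F c ^ d b` at the point
`v`. -/
def ContainsRoots (d : Fin q → ℕ) (F : Fin q → MvPolynomial (Fin (M + 1)) ℂ) (m : ℕ) {K : Type}
    [Field K] [Algebra ℂ K] (v : Fin (M + 1) → K) : Prop :=
  ∀ b c, ∃ ρ : K, ρ ^ m * aeval v (F c) ^ d b = aeval v (F b) ^ d c

/-- Let `V` be a closed subset of the projective space `ℙ ^ M`, of dimension at most `n`, and let
`d b` be degrees which satisfy the numerical condition. There are a number `m₀` and a nonzero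
polynomial `Φ` such that for all forms `F b` of degrees `d b` with `Φ (F) ≠ 0`, all `m ≥ m₀`, all
function fields `K` of surfaces, and all nonconstant rational maps `v` to `V` with an image which is
not contained in a hypersurface `F b = 0`, such that `K` contains `m`-th roots of the rational functions
`F b (v) ^ d c / F c (v) ^ d b`: for every projective surface `X ⊆ ℙ ^ N` with the function field `K`
and the generic point `x`,

(1) the Zariski closure of every entire curve in `X` is a curve of geometric genus at most one;
(2) `X` is Kobayashi hyperbolic iff it is Brody hyperbolic, iff all meromorphic maps from the spaces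
  `ℂ ^ g` to `X` are constant, iff all morphisms from elliptic curves to `X` are constant, iff there is
  no curve of geometric genus at most one in `X`;
(3) if `K` is algebraic over the field generated by the ratios of the coordinates of `v` then `X` is of
  general type. -/
theorem result (V : Set (MvPolynomial (Fin (M + 1)) ℂ)) (hV : ∀ H ∈ V, ∃ e, H.IsHomogeneous e)
    (hn : DimLE V n) (d : Fin q → ℕ) (hd : Degrees n d) :
    ∃ (m₀ : ℕ) (Φ : MvPolynomial (Index M d) ℂ), Φ ≠ 0 ∧
      ∀ F : Fin q → MvPolynomial (Fin (M + 1)) ℂ, General Φ F → ∀ m, m₀ ≤ m →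
      ∀ (K : Type) [Field K] [Algebra ℂ K] (v : Fin (M + 1) → K), Algebra.trdeg ℂ K = (2 : ℕ) →
        RationalMap V v → (∀ b, aeval v (F b) ≠ 0) → ContainsRoots d F m v →
        (∀ (N : ℕ) (x : Fin (N + 1) → K), x ≠ 0 → coords ℂ x = ⊤ →
          (∀ f, EntireCurve x f → vanOn Set.univ (fun t i => f i t) ∈ lowCurves x) ∧
          List.TFAE [KobayashiHyp x, BrodyHyp x, NoMero x, NoElliptic x, lowCurves x = ∅]) ∧
        (Algebra.IsAlgebraic (coords ℂ v) K → GeneralType ℂ K 2) := by
  classical
  obtain ⟨ℓ, hℓ, hZ⟩ := hn
  have hN : Pool.Agent.NH29.GN.NoZero V ℓ := Pool.Agent.NH29.GN.Fn.noZero_of_points (K := ℂ) hZ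
  obtain ⟨hd1, hd2, hd3⟩ := hd
  have hnum : ∀ C : Finset (Fin q), C ≠ Finset.univ → Pool.Agent.NH29.GN.Num2 n d C :=
    fun C hC => Pool.Agent.NH29.GN.Fn.num_of_few hd1 hd2 (by omega) C hC
  obtain ⟨r, rfl⟩ : ∃ r, q = r + 1 := ⟨q - 1, by omega⟩
  obtain ⟨Φ₀, h1, h2⟩ := Run7.h493.TS.exists_allNB ℂ hV hℓ hN hd1 (by omega) hnum
  obtain ⟨Φ₁, mm, hΦ₁, hmm, hAll⟩ := Run7.h493.TS.exists_multi h1 h2
  obtain ⟨m₁, hm₁⟩ := Run7.h493.TS.orb hmm hAll
  obtain ⟨B, ι, Φ₂, hΦ₂, hsys⟩ := Pool.Agent.Run7.h789.RC.exists_sys (d := d) hV hℓ hN
    (by omega) hd1 hnum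
  refine ⟨(m₁ + Run7.h34.UG.mm r B) * ∑ b, d b, Φ₁ * Φ₂, mul_ne_zero hΦ₁ hΦ₂,
    fun F hF m hm K _ _ v htr hv hne hroot => ⟨fun N x hx hgen => ?_, fun halg => ?_⟩⟩
  · have hF1 : General Φ₁ F := ⟨hF.1, by
      have := hF.2
      rw [map_mul] at this
      exact left_ne_zero_of_mul this⟩
    have hlow : ∀ f, EntireCurve x f → vanOn Set.univ (fun t i => f i t) ∈ lowCurves x := by
      intro f hf
      obtain ⟨Q, hQ, hQx, hQf⟩ := Run7.h493.SR.degenerate hV hd1 hAll hm₁ hF.1 hF1.2
        (le_trans (Nat.mul_le_mul_right _ (Nat.le_add_right _ _)) hm) hv.mem hv.nonconst hne hroot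
        hgen hf
      exact Run7.h493.SR.entire_low Pool.Agent.Q285.SFG.t_gpc htr hx hgen hQ hQx hf hQf
    exact ⟨hlow, Run7.h493.SR.tfae hlow⟩
  · have hF2 : eval (fun s : Index M d => coeff s.2.1 (F s.1)) Φ₂ ≠ 0 := by
      have := hF.2
      rw [map_mul] at this
      exact right_ne_zero_of_mul this
    obtain ⟨F', S⟩ := hsys (fun s => coeff s.2.1 (F s.1)) hF2
    obtain ⟨i, j, hj, -⟩ := hv.nonconst
    refine Run7.h493.TS.gt_of_roots S (x := v) (fun h0 => hj (congrFun h0 j)) ?_ (by norm_num) htr
      halg (m := m) (le_trans (Nat.mul_le_mul_right _ (Nat.le_add_left _ _)) hm) fun b c => ?_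
    · exact fun H hH => hv.mem H hH
    · simp only [Run7.h493.SR.fv_eq hF.1]
      exact hroot b c

end Pool.Agent.Results.MP_45e720_ag.SurfacesWithRoots
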