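import Pool.Agent.Run7.h418.Tor2

/-!
MP_45e720_ag, Q1: hyperbolicity and complex tori for projective varieties with an immersive family
of symmetric differentials.
-/

set_option autoImplicit false

open Pool.Agent.W602.GT Pool.Agent.N155 Pool.Agent.TH182.TC Run7.h418

namespace Pool.Agent.Results.MP_45e720_ag.SymmetricDifferentials

/-- Let `X = {F = 0}` be a complex projective variety with an immersive finite family of symmetric
differentials `σ j` of positive degrees `m j`. Then every holomorphic map from the complex plane to
`X` is constant if and only if every holomorphic map from a complex torus to `X` is constant. If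
this is not the case, there is even a holomorphic immersion of a complex torus of positive
dimension into `X`. -/
theorem result {n : ℕ} {ι κ : Type} [Finite κ] {F : ι → MvPolynomial (Fin (n + 1)) ℂ}
    (hF : ∀ i, IsForm (F i)) {m : κ → ℕ} (hm : ∀ j, 0 < m j)
    {σ : κ → (Fin (n + 1) → ℂ) → (Fin (n + 1) → ℂ) → ℂ} (hσ : ∀ j, SymForm F (m j) (σ j))
    (him : Immersive F σ) :
    (BrodyHyperbolic F ↔ TorusRigid F) ∧ (¬ BrodyHyperbolic F ↔ ImmersedTorus F) := by
  have h1 : ¬ BrodyHyperbolic F → ImmersedTorus F := torus_of_not_brody hF hm hσ him
  refine ⟨⟨rigid_of_brody, fun h => ?_⟩, h1, fun h hB => not_rigid_of_torus h (rigid_of_brody hB)⟩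
  by_contra hB
  exact not_rigid_of_torus (h1 hB) h

end Pool.Agent.Results.MP_45e720_ag.SymmetricDifferentials
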